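import Pool.Agent.Y215.CT.Stm

set_option autoImplicit false

/-! # Bounded number of representations (helper of the project CT) -/

namespace Pool.Agent.Y331.CT

open Finset
open scoped Classical

theorem pow_alt (p : ℕ) (hp : p.Prime) (hp2 : p ≠ 2) (g : ℕ) (x y : ℤ)
    (h : (p : ℤ) ^ g ∣ (x - y) * (x + y)) (hx : ¬ (p : ℤ) ∣ x) :
    (p : ℤ) ^ g ∣ x - y ∨ (p : ℤ) ^ g ∣ x + y := by
  have hP : Prime (p : ℤ) := Nat.prime_iff_prime_int.mp hp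
  by_cases h1 : (p : ℤ) ∣ x - y
  · have h2 : ¬ (p : ℤ) ∣ x + y := by
      intro h2
      have h3 : (p : ℤ) ∣ 2 * x := by
        have := dvd_add h1 h2
        have e : x - y + (x + y) = 2 * x := by ring
        rwa [e] at this
      rcases hP.dvd_or_dvd h3 with h4 | h4
      · have h5 : p ∣ 2 := by exact_mod_cast h4
        exact hp2 ((Nat.prime_dvd_prime_iff_eq hp Nat.prime_two).mp h5)
      · exact hx h4
    exact Or.inl (hP.pow_dvd_of_dvd_mul_right g h2 h)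
  · exact Or.inr (hP.pow_dvd_of_dvd_mul_left g h1 h)

theorem same_sign (p : ℕ) (hp : p.Prime) (hp2 : p ≠ 2) (g : ℕ) (n0 q0 n1 q1 n2 q2 : ℤ)
    (h1 : (p : ℤ) ^ g ∣ (n1 * q0 - n0 * q1) * (n1 * q0 + n0 * q1))
    (h2 : (p : ℤ) ^ g ∣ (n2 * q0 - n0 * q2) * (n2 * q0 + n0 * q2))
    (hn1 : ¬ (p : ℤ) ∣ n1) (hn2 : ¬ (p : ℤ) ∣ n2) (hq : ¬ (p : ℤ) ∣ q0)
    (hs : (p : ℤ) ^ g ∣ n1 * q0 - n0 * q1 ↔ (p : ℤ) ^ g ∣ n2 * q0 - n0 * q2) :
    (p : ℤ) ^ g ∣ n1 * q2 - n2 * q1 := by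
  have hP : Prime (p : ℤ) := Nat.prime_iff_prime_int.mp hp
  have key : (p : ℤ) ^ g ∣ q0 * (n1 * q2 - n2 * q1) := by
    by_cases h : (p : ℤ) ^ g ∣ n1 * q0 - n0 * q1
    · have h' := hs.mp h
      have e : q0 * (n1 * q2 - n2 * q1) = (n1 * q0 - n0 * q1) * q2 - (n2 * q0 - n0 * q2) * q1 := by
        ring
      rw [e]
      exact dvd_sub (Dvd.dvd.mul_right h _) (Dvd.dvd.mul_right h' _)
    · have h' : ¬ (p : ℤ) ^ g ∣ n2 * q0 - n0 * q2 := fun h' => h (hs.mpr h')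
      have m1 : ¬ (p : ℤ) ∣ n1 * q0 := fun h3 => (hP.dvd_or_dvd h3).elim hn1 hq
      have m2 : ¬ (p : ℤ) ∣ n2 * q0 := fun h3 => (hP.dvd_or_dvd h3).elim hn2 hq
      have k1 := (pow_alt p hp hp2 g _ _ h1 m1).resolve_left h
      have k2 := (pow_alt p hp hp2 g _ _ h2 m2).resolve_left h'
      have e : q0 * (n1 * q2 - n2 * q1) = (n1 * q0 + n0 * q1) * q2 - (n2 * q0 + n0 * q2) * q1 := by
        ring
      rw [e]
      exact dvd_sub (Dvd.dvd.mul_right k1 _) (Dvd.dvd.mul_right k2 _)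
  exact hP.pow_dvd_of_dvd_mul_left g hq key

theorem prod_lt (N m d n q : ℤ) (hN : 4 * N ^ 2 < m) (hn0 : 0 ≤ n) (hn : n ≤ N) (hq : 0 ≤ q)
    (hd : 1 ≤ d) (h : n ^ 2 + d * q ^ 2 = 4 * m) (n' : ℤ) (hn0' : 0 ≤ n') (hn' : n' ≤ N) :
    n' * q < m := by
  have hm : 0 < m := lt_of_le_of_lt (by positivity) hN
  have h1 : q ^ 2 ≤ 4 * m := by nlinarith [sq_nonneg n, sq_nonneg q]
  have h2 : n' ^ 2 ≤ N ^ 2 := by nlinarith
  have h3 : (n' * q) ^ 2 ≤ N ^ 2 * (4 * m) := by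
    rw [mul_pow]
    exact mul_le_mul h2 h1 (sq_nonneg q) (sq_nonneg N)
  have h4 : N ^ 2 * (4 * m) < m ^ 2 := by nlinarith
  exact lt_of_pow_lt_pow_left₀ 2 hm.le (lt_of_le_of_lt h3 h4)

theorem eq_of_prop (d n1 q1 n2 q2 : ℤ) (hd : 1 ≤ d) (h1 : 0 < n1) (h2 : 0 < n2) (h3 : 0 < q1)
    (h4 : 0 < q2) (h : n1 * q2 = n2 * q1)
    (e : n1 ^ 2 + d * q1 ^ 2 = n2 ^ 2 + d * q2 ^ 2) : n1 = n2 := by
  rcases lt_trichotomy n1 n2 with hlt | heq | hgt
  · exfalso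
    have h5 : q1 < q2 := by
      by_contra hc
      push Not at hc
      nlinarith
    have h6 : n1 ^ 2 < n2 ^ 2 := by nlinarith
    have h7 : q1 ^ 2 < q2 ^ 2 := by nlinarith
    nlinarith
  · exact heq
  · exfalso
    have h5 : q2 < q1 := by
      by_contra hc
      push Not at hc
      nlinarith
    have h6 : n2 ^ 2 < n1 ^ 2 := by nlinarith
    have h7 : q2 ^ 2 < q1 ^ 2 := by nlinarith
    nlinarith

theorem t_REP : Pool.Agent.Y215.CT.S_REP := by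
  intro g d a b N hd ha hb hab ha2 hb2 hN
  set T := (Icc 1 N).filter (fun n => Nat.Coprime (a * b) n ∧
      ∃ q : ℕ, 0 < q ∧ n ^ 2 + d * q ^ 2 = 4 * (a * b) ^ g) with hT
  by_cases hne : T.Nonempty
  swap
  · rw [Finset.not_nonempty_iff_eq_empty] at hne
    rw [hne]
    simp
  have hmem : ∀ n ∈ T, 1 ≤ n ∧ n ≤ N ∧ Nat.Coprime (a * b) n ∧
      ∃ q : ℕ, 0 < q ∧ n ^ 2 + d * q ^ 2 = 4 * (a * b) ^ g := by
    intro n hn
    rw [hT, Finset.mem_filter, Finset.mem_Icc] at hn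
    exact ⟨hn.1.1, hn.1.2, hn.2.1, hn.2.2⟩
  choose! f hf using fun n (hn : n ∈ T) => (hmem n hn).2.2.2
  obtain ⟨n0, hn0⟩ := hne
  have hg : g ≠ 0 := by
    intro hg
    rw [hg, pow_zero] at hN
    have h1 := (hmem n0 hn0).1
    have h2 := (hmem n0 hn0).2.1
    nlinarith
  have ndvd : ∀ p : ℕ, p.Prime → p ∣ a * b → ∀ n ∈ T, ¬ (p : ℤ) ∣ (n : ℤ) := by
    intro p hp hpab n hn h
    have h1 : p ∣ n := by exact_mod_cast h
    have h2 := Nat.dvd_gcd hpab h1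
    rw [(hmem n hn).2.2.1] at h2
    exact hp.one_lt.ne' (Nat.dvd_one.mp h2)
  have qdvd : ∀ p : ℕ, p.Prime → p ∣ a * b → ∀ n ∈ T, ¬ (p : ℤ) ∣ (f n : ℤ) := by
    intro p hp hpab n hn h
    have h1 : p ∣ f n := by exact_mod_cast h
    have h2 : p ∣ 4 * (a * b) ^ g := Dvd.dvd.mul_left (Dvd.dvd.trans hpab (dvd_pow_self _ hg)) _
    have h3 : p ∣ d * f n ^ 2 := Dvd.dvd.mul_left (Dvd.dvd.trans h1 (dvd_pow_self _ two_ne_zero)) _
    have h4 : p ∣ n ^ 2 := by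
      have := (hf n hn).2
      rw [← this] at h2
      exact (Nat.dvd_add_left h3).mp h2
    have h5 : p ∣ n := hp.dvd_of_dvd_pow h4
    exact ndvd p hp hpab n hn (by exact_mod_cast h5)
  have heq : ∀ n ∈ T, (n : ℤ) ^ 2 + d * (f n : ℤ) ^ 2 = 4 * ((a : ℤ) * b) ^ g := by
    intro n hn
    have := (hf n hn).2
    exact_mod_cast this
  have hprod : ∀ p : ℕ, p ∣ a * b → ∀ n ∈ T,
      (p : ℤ) ^ g ∣ ((n : ℤ) * f n0 - n0 * f n) * (n * f n0 + n0 * f n) := by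
    intro p hpab n hn
    have e : ((n : ℤ) * f n0 - n0 * f n) * (n * f n0 + n0 * f n) =
        ((a : ℤ) * b) ^ g * (4 * ((f n0 : ℤ) ^ 2 - (f n : ℤ) ^ 2)) := by
      have e1 := heq n hn
      have e2 := heq n0 hn0
      have e3 : (n : ℤ) ^ 2 = 4 * ((a : ℤ) * b) ^ g - d * (f n : ℤ) ^ 2 := by linarith
      have e4 : (n0 : ℤ) ^ 2 = 4 * ((a : ℤ) * b) ^ g - d * (f n0 : ℤ) ^ 2 := by linarith
      have e5 : ((n : ℤ) * f n0 - n0 * f n) * (n * f n0 + n0 * f n) =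
        (n : ℤ) ^ 2 * (f n0 : ℤ) ^ 2 - (n0 : ℤ) ^ 2 * (f n : ℤ) ^ 2 := by ring
      rw [e5, e3, e4]
      ring
    rw [e]
    have hz : (p : ℤ) ∣ (a : ℤ) * b := by exact_mod_cast hpab
    exact Dvd.dvd.mul_right (pow_dvd_pow_of_dvd hz g) _
  set F : ℕ → Bool × Bool := fun n =>
    (decide ((a : ℤ) ^ g ∣ (n : ℤ) * f n0 - n0 * f n),
     decide ((b : ℤ) ^ g ∣ (n : ℤ) * f n0 - n0 * f n)) with hF
  have hinj : Set.InjOn F T := by
    intro n1 h1 n2 h2 h12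
    have h1' : n1 ∈ T := h1
    have h2' : n2 ∈ T := h2
    have hsa : ((a : ℤ) ^ g ∣ (n1 : ℤ) * f n0 - n0 * f n1) ↔
        ((a : ℤ) ^ g ∣ (n2 : ℤ) * f n0 - n0 * f n2) := by
      have := congrArg Prod.fst h12
      simpa [hF] using this
    have hsb : ((b : ℤ) ^ g ∣ (n1 : ℤ) * f n0 - n0 * f n1) ↔
        ((b : ℤ) ^ g ∣ (n2 : ℤ) * f n0 - n0 * f n2) := by
      have := congrArg Prod.snd h12
      simpa [hF] using this
    have haa : a ∣ a * b := dvd_mul_right _ _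
    have hbb : b ∣ a * b := dvd_mul_left _ _
    have ka := same_sign a ha ha2 g n0 (f n0) n1 (f n1) n2 (f n2) (hprod a haa n1 h1')
      (hprod a haa n2 h2') (ndvd a ha haa n1 h1') (ndvd a ha haa n2 h2') (qdvd a ha haa n0 hn0) hsa
    have kb := same_sign b hb hb2 g n0 (f n0) n1 (f n1) n2 (f n2) (hprod b hbb n1 h1')
      (hprod b hbb n2 h2') (ndvd b hb hbb n1 h1') (ndvd b hb hbb n2 h2') (qdvd b hb hbb n0 hn0) hsb
    have hcop : IsCoprime ((a : ℤ) ^ g) ((b : ℤ) ^ g) := by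
      apply IsCoprime.pow
      rw [Nat.isCoprime_iff_coprime]
      exact (Nat.coprime_primes ha hb).mpr hab
    have k := hcop.mul_dvd ka kb
    rw [← mul_pow] at k
    have hN' : 4 * (N : ℤ) ^ 2 < ((a : ℤ) * b) ^ g := by exact_mod_cast hN
    have hd' : (1 : ℤ) ≤ d := by exact_mod_cast hd
    have b1 : (n1 : ℤ) ≤ N := by exact_mod_cast (hmem n1 h1').2.1
    have b2 : (n2 : ℤ) ≤ N := by exact_mod_cast (hmem n2 h2').2.1
    have l1 : (n1 : ℤ) * f n2 < ((a : ℤ) * b) ^ g :=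
      prod_lt N _ d n2 (f n2) hN' (by positivity) b2 (by positivity) hd' (heq n2 h2') n1
        (by positivity) b1
    have l2 : (n2 : ℤ) * f n1 < ((a : ℤ) * b) ^ g :=
      prod_lt N _ d n1 (f n1) hN' (by positivity) b1 (by positivity) hd' (heq n1 h1') n2
        (by positivity) b2
    have p1 : (0 : ℤ) ≤ (n1 : ℤ) * f n2 := by positivity
    have p2 : (0 : ℤ) ≤ (n2 : ℤ) * f n1 := by positivity
    have hz : (n1 : ℤ) * f n2 - n2 * f n1 = 0 := by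
      apply Int.eq_zero_of_abs_lt_dvd k
      rw [abs_lt]
      constructor <;> linarith
    have hfin : (n1 : ℤ) = n2 := by
      apply eq_of_prop d n1 (f n1) n2 (f n2) hd'
      · exact_mod_cast (hmem n1 h1').1
      · exact_mod_cast (hmem n2 h2').1
      · exact_mod_cast (hf n1 h1').1
      · exact_mod_cast (hf n2 h2').1
      · linarith
      · rw [heq n1 h1', heq n2 h2']
    exact_mod_cast hfin
  have hcard := Finset.card_le_card_of_injOn F (s := T) (t := Finset.univ)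
    (fun _ _ => Finset.mem_coe.mpr (Finset.mem_univ _)) hinj
  simpa using hcard

end Pool.Agent.Y331.CT
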